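import Pool.Agent.Y958.SP.Stm
import Pool.Agent.H373R2.T7.BilF

set_option autoImplicit false

/-! Project SP: second moment over a random shift (SP-SM). -/

namespace Pool.Agent.Y641.SP
open Finset
open Pool.Agent.H807R2.Dav
open Pool.Agent.H373R2.T7 (orth parseval_Icc)
open Pool.Agent.Y958.SP (ph SM)

theorem cee (x : ℝ) : (starRingEnd ℂ) (ee x) = ee (-x) := by
  unfold ee
  rw [← Complex.exp_conj]
  congr 1
  simp only [map_mul, Complex.conj_ofReal, Complex.conj_I, map_ofNat]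
  push_cast
  ring

section ph

variable {ι : Type} [Fintype ι] (w : ι → ℝ) (v : ι → ℤ)

theorem ph_add_int (α : ℝ) (n : ℤ) : ph w v (α + n) = ph w v α := by
  unfold ph
  refine sum_congr rfl fun i _ => ?_
  have e : (v i : ℝ) * (α + n) = (v i : ℝ) * α + ((v i * n : ℤ) : ℝ) := by push_cast; ring
  rw [e, ee_add_int]

theorem ph_norm (hw : ∀ i, 0 ≤ w i) (hw1 : ∑ i, w i = 1) (α : ℝ) : ‖ph w v α‖ ≤ 1 := by
  unfold ph
  refine (norm_sum_le _ _).trans ?_
  rw [← hw1]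
  refine sum_le_sum fun i _ => ?_
  rw [norm_mul, norm_ee, mul_one, Complex.norm_real, Real.norm_eq_abs, abs_of_nonneg (hw i)]

end ph

/-- the Fourier identity -/
theorem four (x H M : ℕ) (G f : ℕ → ℝ) (hM : 1 ≤ M) (h : ℤ) (hh : |h| + x + H < M) :
    (M : ℂ) * ((∑ a ∈ Icc 1 x, G a * (if 1 ≤ (a : ℤ) + h ∧ (a : ℤ) + h ≤ H then
      f ((a : ℤ) + h).toNat else 0) : ℝ) : ℂ) =
    ∑ r ∈ range M, (∑ n ∈ Icc 1 H, ((f n : ℝ) : ℂ) * ee ((n : ℝ) * ((r : ℝ) / M))) *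
      (starRingEnd ℂ) (∑ a ∈ Icc 1 x, ((G a : ℝ) : ℂ) * ee ((a : ℝ) * ((r : ℝ) / M))) *
      ee (-((h : ℝ) * ((r : ℝ) / M))) := by
  have h1 : ∀ r ∈ range M, (∑ n ∈ Icc 1 H, ((f n : ℝ) : ℂ) * ee ((n : ℝ) * ((r : ℝ) / M))) *
      (starRingEnd ℂ) (∑ a ∈ Icc 1 x, ((G a : ℝ) : ℂ) * ee ((a : ℝ) * ((r : ℝ) / M))) *
      ee (-((h : ℝ) * ((r : ℝ) / M))) = ∑ a ∈ Icc 1 x, ∑ n ∈ Icc 1 H,
        ((G a : ℝ) : ℂ) * ((f n : ℝ) : ℂ) * ee ((r : ℝ) * ((((n : ℤ) - a - h : ℤ) : ℝ) / M)) := by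
    intro r _
    rw [map_sum, sum_mul_sum, sum_comm, sum_mul]
    refine sum_congr rfl fun a _ => ?_
    rw [sum_mul]
    refine sum_congr rfl fun n _ => ?_
    have h2 : ee ((r : ℝ) * ((((n : ℤ) - a - h : ℤ) : ℝ) / M)) =
        ee ((n : ℝ) * ((r : ℝ) / M)) * ee (-((a : ℝ) * ((r : ℝ) / M))) *
          ee (-((h : ℝ) * ((r : ℝ) / M))) := by
      rw [← ee_add, ← ee_add]
      congr 1
      push_cast
      ring
    rw [h2, map_mul, Complex.conj_ofReal, cee]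
    ring
  rw [sum_congr rfl h1, sum_comm, Complex.ofReal_sum, mul_sum]
  refine sum_congr rfl fun a ha => ?_
  rw [sum_comm]
  rw [mem_Icc] at ha
  have hab := abs_le.1 (le_of_eq (rfl : |h| = |h|))
  have h2 : ∀ n ∈ Icc 1 H, ∑ r ∈ range M, ((G a : ℝ) : ℂ) * ((f n : ℝ) : ℂ) *
      ee ((r : ℝ) * ((((n : ℤ) - a - h : ℤ) : ℝ) / M)) =
      if (n : ℤ) = a + h then (M : ℂ) * (((G a : ℝ) : ℂ) * ((f n : ℝ) : ℂ)) else 0 := by
    intro n hn
    rw [mem_Icc] at hn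
    rw [← mul_sum, orth M hM]
    by_cases h3 : (n : ℤ) = a + h
    · rw [if_pos h3, if_pos (by rw [h3]; simp)]
      ring
    · rw [if_neg h3, if_neg, mul_zero]
      intro hd
      apply h3
      have := Int.eq_zero_of_abs_lt_dvd hd (by
        rw [abs_lt]
        constructor <;> omega)
      omega
  rw [sum_congr rfl h2, Complex.ofReal_mul]
  by_cases h3 : 1 ≤ (a : ℤ) + h ∧ (a : ℤ) + h ≤ H
  · rw [if_pos h3, sum_eq_single ((a : ℤ) + h).toNat]
    · rw [if_pos (by rw [Int.toNat_of_nonneg (by omega)])]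
    · intro n _ hne
      rw [if_neg]
      intro h4
      apply hne
      omega
    · intro h4
      exfalso
      apply h4
      rw [mem_Icc]
      omega
  · rw [if_neg h3, Complex.ofReal_zero, mul_zero, mul_zero]
    symm
    apply sum_eq_zero
    intro n hn
    rw [mem_Icc] at hn
    rw [if_neg]
    omega

theorem sm : SM := by
  intro ι _ w v x H M G f ρ Δ g1 g2 R hw hw1 hM hρ hΔ hv hf hg1 hg2 hR
  have hM0 : (0 : ℝ) < M := by exact_mod_cast hM
  have hMC : (M : ℂ) ≠ 0 := by exact_mod_cast hM0.ne'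
  obtain ⟨i0⟩ : Nonempty ι := by
    by_contra hne
    rw [not_nonempty_iff] at hne
    rw [Finset.univ_eq_empty, sum_empty] at hw1
    exact zero_ne_one hw1
  have hxM : x ≤ M := by
    have := hv i0
    have h2 := abs_nonneg (v i0)
    omega
  have hHM : H ≤ M := by
    have := hv i0
    have h2 := abs_nonneg (v i0)
    omega
  have hg1' : 0 ≤ g1 := (sum_nonneg fun _ _ => sq_nonneg _).trans hg1
  have hg2' : 0 ≤ g2 := (sum_nonneg fun _ _ => sq_nonneg _).trans hg2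
  have hR0 : 0 ≤ R := (Nat.cast_nonneg _).trans hR
  set fh : ℕ → ℂ := fun r => ∑ n ∈ Icc 1 H, ((f n : ℝ) : ℂ) * ee ((n : ℝ) * ((r : ℝ) / M)) with hfh
  set Gh : ℕ → ℂ := fun r => ∑ a ∈ Icc 1 x, ((G a : ℝ) : ℂ) * ee ((a : ℝ) * ((r : ℝ) / M)) with hGh
  set A : ℕ → ℂ := fun r => fh r * (starRingEnd ℂ) (Gh r) / M with hA
  set T : ι → ℝ := fun i => ∑ a ∈ Icc 1 x, G a * (if 1 ≤ (a : ℤ) + v i ∧ (a : ℤ) + v i ≤ H then
    f ((a : ℤ) + v i).toNat else 0) with hT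
  -- Parseval
  have par : ∀ (N : ℕ) (g : ℕ → ℝ), N ≤ M →
      ∑ r ∈ range M, ‖∑ n ∈ Icc 1 N, ((g n : ℝ) : ℂ) * ee ((n : ℝ) * ((r : ℝ) / M))‖ ^ 2 =
        M * ∑ n ∈ Icc 1 N, g n ^ 2 := by
    intro N g hN
    have h1 := parseval_Icc N M hM hN (fun n => ((g n : ℝ) : ℂ)) 1 (Or.inl rfl)
    have h2 : ∀ n ∈ Icc 1 N, ‖((g n : ℝ) : ℂ)‖ ^ 2 = g n ^ 2 := by
      intro n _
      rw [Complex.norm_real, Real.norm_eq_abs, sq_abs]
    rw [sum_congr rfl h2] at h1
    rw [← h1]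
    refine sum_congr rfl fun r _ => ?_
    congr 2
    refine sum_congr rfl fun n _ => ?_
    congr 2
    push_cast
    ring
  have pf : ∑ r ∈ range M, ‖fh r‖ ^ 2 ≤ M * g1 := by
    rw [par H f hHM]
    exact mul_le_mul_of_nonneg_left hg1 hM0.le
  have pG : ∑ r ∈ range M, ‖Gh r‖ ^ 2 ≤ M * g2 := by
    rw [par x G hxM]
    exact mul_le_mul_of_nonneg_left hg2 hM0.le
  -- the Fourier expansion
  have hTe : ∀ i, ((T i : ℝ) : ℂ) = ∑ r ∈ range M, A r * ee (-((v i : ℝ) * ((r : ℝ) / M))) := by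
    intro i
    have h1 := four x H M G f hM (v i) (hv i)
    apply mul_left_cancel₀ hMC
    rw [h1, mul_sum]
    refine sum_congr rfl fun r _ => ?_
    rw [hA]
    simp only
    rw [← mul_assoc, mul_div_cancel₀ _ hMC]
  have hsq : ((∑ i, w i * T i ^ 2 : ℝ) : ℂ) = ∑ r ∈ range M, ∑ s ∈ range M,
      A r * (starRingEnd ℂ) (A s) * ph w v (((s : ℝ) - r) / M) := by
    have h1 : ∀ i, ((w i * T i ^ 2 : ℝ) : ℂ) = ∑ r ∈ range M, ∑ s ∈ range M,
        A r * (starRingEnd ℂ) (A s) * (((w i : ℝ) : ℂ) *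
          ee ((v i : ℝ) * (((s : ℝ) - r) / M))) := by
      intro i
      have h2 : ((w i * T i ^ 2 : ℝ) : ℂ) =
          ((w i : ℝ) : ℂ) * (((T i : ℝ) : ℂ) * (starRingEnd ℂ) ((T i : ℝ) : ℂ)) := by
        rw [Complex.conj_ofReal]; push_cast; ring
      rw [h2, hTe i, map_sum, sum_mul_sum, mul_sum]
      refine sum_congr rfl fun r _ => ?_
      rw [mul_sum]
      refine sum_congr rfl fun s _ => ?_
      have h3 : ee ((v i : ℝ) * (((s : ℝ) - r) / M)) = ee (-((v i : ℝ) * ((r : ℝ) / M))) *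
          ee ((v i : ℝ) * ((s : ℝ) / M)) := by
        rw [← ee_add]
        congr 1
        ring
      rw [h3, map_mul, cee, neg_neg]
      ring
    rw [Complex.ofReal_sum, sum_congr rfl fun i _ => h1 i, sum_comm]
    refine sum_congr rfl fun r _ => ?_
    rw [sum_comm]
    refine sum_congr rfl fun s _ => ?_
    unfold ph
    rw [mul_sum]
  have hbound : ∑ i, w i * T i ^ 2 ≤ ∑ r ∈ range M, ∑ s ∈ range M,
      ‖A r‖ * ‖A s‖ * ‖ph w v (((s : ℝ) - r) / M)‖ := by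
    have h1 : ∑ i, w i * T i ^ 2 ≤ ‖((∑ i, w i * T i ^ 2 : ℝ) : ℂ)‖ := by
      rw [Complex.norm_real, Real.norm_eq_abs]
      exact le_abs_self _
    refine h1.trans ?_
    rw [hsq]
    refine (norm_sum_le _ _).trans (sum_le_sum fun r _ => ?_)
    refine (norm_sum_le _ _).trans (sum_le_sum fun s _ => ?_)
    rw [norm_mul, norm_mul, Complex.norm_conj]
  -- the number of the large coefficients
  have hcard : ∀ r ∈ range M, (((range M).filter
      (fun s : ℕ => ρ < ‖ph w v (((s : ℝ) - r) / M)‖)).card : ℝ) ≤ R := by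
    intro r hr
    rw [mem_range] at hr
    refine le_trans ?_ hR
    refine Nat.cast_le.2 ?_
    apply card_le_card_of_injOn fun s => (s + M - r) % M
    · intro s hs
      rw [mem_coe, mem_filter, mem_range] at hs
      rw [mem_coe, mem_filter, mem_range]
      refine ⟨Nat.mod_lt _ hM, ?_⟩
      have e1 := Nat.div_add_mod (s + M - r) M
      have e2 : ((s : ℝ) - r) / M = (((s + M - r) % M : ℕ) : ℝ) / M +
          (((((s + M - r) / M : ℕ) : ℤ) - 1 : ℤ) : ℝ) := by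
        have e3 : (M : ℝ) * (((s + M - r) / M : ℕ) : ℝ) + (((s + M - r) % M : ℕ) : ℝ) =
            (s : ℝ) + M - r := by
          have e4 : ((s + M - r : ℕ) : ℝ) = (s : ℝ) + M - r := by
            rw [Nat.cast_sub (by omega)]; push_cast; ring
          rw [← e4]
          exact_mod_cast e1
        rw [Int.cast_sub, Int.cast_one, Int.cast_natCast]
        field_simp
        linarith
      rw [e2, ph_add_int] at hs
      exact hs.2
    · intro s hs t ht hst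
      rw [mem_coe, mem_filter, mem_range] at hs ht
      have h5 : (s + M - r) % M = (t + M - r) % M := hst
      have h6 : (s + M - r) ≡ (t + M - r) [MOD M] := h5
      have h7 := (Nat.modEq_iff_dvd.1 h6)
      obtain ⟨c, hc⟩ := h7
      have h8 : ((t + M - r : ℕ) : ℤ) - ((s + M - r : ℕ) : ℤ) = (t : ℤ) - s := by omega
      rw [h8] at hc
      have h9 : (t : ℤ) - s = 0 := Int.eq_zero_of_abs_lt_dvd ⟨c, hc⟩ (by
        rw [abs_lt]; constructor <;> omega)
      omega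
  -- the two parts
  set L : ℝ := ∑ r ∈ range M, ‖A r‖ with hL
  have hL0 : 0 ≤ L := sum_nonneg fun _ _ => norm_nonneg _
  have hA1 : ∀ r, ‖A r‖ = ‖fh r‖ * ‖Gh r‖ / M := by
    intro r
    rw [hA]
    simp only
    rw [norm_div, norm_mul, Complex.norm_conj, Complex.norm_natCast]
  have hLle : L ≤ Real.sqrt g1 * Real.sqrt g2 := by
    rw [hL]
    simp only [hA1]
    rw [← sum_div, div_le_iff₀ hM0]
    have h1 := sum_mul_sq_le_sq_mul_sq (range M) (fun r => ‖fh r‖) (fun r => ‖Gh r‖)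
    have h2 : (∑ r ∈ range M, ‖fh r‖ * ‖Gh r‖) ^ 2 ≤ (M * g1) * (M * g2) :=
      h1.trans (mul_le_mul pf pG (sum_nonneg fun _ _ => sq_nonneg _) (by positivity))
    have h3 : (M * g1) * (M * g2) = (Real.sqrt g1 * Real.sqrt g2 * M) ^ 2 := by
      rw [mul_pow, mul_pow, Real.sq_sqrt hg1', Real.sq_sqrt hg2']
      ring
    rw [h3] at h2
    exact le_of_sq_le_sq h2 (by positivity)
  have hrow : ∀ r ∈ range M, ∑ s ∈ range M, ‖A s‖ * ‖ph w v (((s : ℝ) - r) / M)‖ ≤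
      ρ * L + Δ * Real.sqrt (R / M) * Real.sqrt g2 := by
    intro r hr
    set S := (range M).filter (fun s : ℕ => ρ < ‖ph w v (((s : ℝ) - r) / M)‖) with hS
    have h1 : ∑ s ∈ range M, ‖A s‖ * ‖ph w v (((s : ℝ) - r) / M)‖ ≤
        ∑ s ∈ range M, (ρ * ‖A s‖ + if ρ < ‖ph w v (((s : ℝ) - r) / M)‖ then ‖A s‖ else 0) := by
      refine sum_le_sum fun s _ => ?_
      have h2 := ph_norm w v hw hw1 (((s : ℝ) - r) / M)
      have h3 := norm_nonneg (A s)
      split_ifs with h4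
      · have h5 : ‖A s‖ * ‖ph w v (((s : ℝ) - r) / M)‖ ≤ ‖A s‖ * 1 :=
          mul_le_mul_of_nonneg_left h2 h3
        have h6 : 0 ≤ ρ * ‖A s‖ := mul_nonneg hρ h3
        linarith
      · rw [not_lt] at h4
        have := mul_le_mul_of_nonneg_left h4 h3
        linarith
    rw [sum_add_distrib, ← mul_sum, ← sum_filter] at h1
    refine h1.trans (add_le_add le_rfl ?_)
    have h2 : ∑ s ∈ S, ‖A s‖ ≤ Δ / M * ∑ s ∈ S, ‖Gh s‖ := by
      rw [mul_sum]
      refine sum_le_sum fun s hs => ?_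
      rw [hS, mem_filter, mem_range] at hs
      rw [hA1, div_mul_eq_mul_div]
      have h3 := hf s hs.1
      exact div_le_div_of_nonneg_right (mul_le_mul_of_nonneg_right h3 (norm_nonneg _)) hM0.le
    refine h2.trans ?_
    have h3 : (∑ s ∈ S, ‖Gh s‖) ^ 2 ≤ R * (M * g2) := by
      refine (sq_sum_le_card_mul_sum_sq).trans ?_
      refine mul_le_mul (hcard r hr) ?_ (sum_nonneg fun _ _ => sq_nonneg _) hR0
      refine (sum_le_sum_of_subset_of_nonneg (filter_subset _ _) fun _ _ _ => sq_nonneg _).trans pG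
    have h4 : R * (M * g2) = (M * (Real.sqrt (R / M) * Real.sqrt g2)) ^ 2 := by
      rw [mul_pow, mul_pow, Real.sq_sqrt (by positivity), Real.sq_sqrt hg2']
      field_simp
    rw [h4] at h3
    have h5 : ∑ s ∈ S, ‖Gh s‖ ≤ M * (Real.sqrt (R / M) * Real.sqrt g2) :=
      le_of_sq_le_sq h3 (by positivity)
    calc Δ / M * ∑ s ∈ S, ‖Gh s‖ ≤ Δ / M * (M * (Real.sqrt (R / M) * Real.sqrt g2)) :=
          mul_le_mul_of_nonneg_left h5 (by positivity)
      _ = Δ * Real.sqrt (R / M) * Real.sqrt g2 := by field_simp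
  refine hbound.trans ?_
  have h1 : ∑ r ∈ range M, ∑ s ∈ range M, ‖A r‖ * ‖A s‖ * ‖ph w v (((s : ℝ) - r) / M)‖ ≤
      L * (ρ * L + Δ * Real.sqrt (R / M) * Real.sqrt g2) := by
    rw [hL, sum_mul]
    refine sum_le_sum fun r hr => ?_
    have e : ∑ s ∈ range M, ‖A r‖ * ‖A s‖ * ‖ph w v (((s : ℝ) - r) / M)‖ =
        ‖A r‖ * ∑ s ∈ range M, ‖A s‖ * ‖ph w v (((s : ℝ) - r) / M)‖ := by
      rw [mul_sum]
      exact sum_congr rfl fun s _ => by ring
    rw [e]
    exact mul_le_mul_of_nonneg_left (hrow r hr) (norm_nonneg _)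
  refine h1.trans ?_
  have h2 : 0 ≤ Δ * Real.sqrt (R / M) * Real.sqrt g2 := by positivity
  have h3 : L * L ≤ g1 * g2 := by
    calc L * L ≤ (Real.sqrt g1 * Real.sqrt g2) * (Real.sqrt g1 * Real.sqrt g2) :=
          mul_le_mul hLle hLle hL0 (by positivity)
      _ = Real.sqrt g1 ^ 2 * Real.sqrt g2 ^ 2 := by ring
      _ = g1 * g2 := by rw [Real.sq_sqrt hg1', Real.sq_sqrt hg2']
  calc L * (ρ * L + Δ * Real.sqrt (R / M) * Real.sqrt g2)
      = ρ * (L * L) + L * (Δ * Real.sqrt (R / M) * Real.sqrt g2) := by ring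
    _ ≤ ρ * (g1 * g2) + (Real.sqrt g1 * Real.sqrt g2) * (Δ * Real.sqrt (R / M) * Real.sqrt g2) :=
        add_le_add (mul_le_mul_of_nonneg_left h3 hρ) (mul_le_mul_of_nonneg_right hLle h2)
    _ = ρ * g1 * g2 + (Real.sqrt g2 ^ 2) * Real.sqrt g1 * Δ * Real.sqrt (R / M) := by ring
    _ = _ := by rw [Real.sq_sqrt hg2']

end Pool.Agent.Y641.SP
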