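import Pool.Agent.Z894.CP.Stm4
import Pool.Agent.Y641.ND.Comb

/-! Project SP, part 6: packing the equations into groups, with visible parts of compound
equations of size more than `k0`. -/

set_option autoImplicit false

namespace Pool.Agent.Y641.SPC

open Pool.Agent.Z894.ND Pool.Agent.Z894.SP Pool.Agent.Y641.NDC

/-- the greedy ends of the intervals -/
def gl (m s k0 : ℕ) (u : ℕ → ℕ) : ℕ → ℕ
  | 0 => 0
  | k + 1 =>
    if gl m s k0 u k < s * (min (gl m s k0 u k + u k) (m * s) / s) ∧
        min (gl m s k0 u k + u k) (m * s) % s ≤ k0 then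
      s * (min (gl m s k0 u k + u k) (m * s) / s)
    else min (gl m s k0 u k + u k) (m * s)

theorem gl_step (m s k0 : ℕ) (u : ℕ → ℕ) (k : ℕ) :
    (gl m s k0 u k < s * (min (gl m s k0 u k + u k) (m * s) / s) ∧
        min (gl m s k0 u k + u k) (m * s) % s ≤ k0 ∧
      gl m s k0 u (k + 1) = s * (min (gl m s k0 u k + u k) (m * s) / s)) ∨
    (¬ (gl m s k0 u k < s * (min (gl m s k0 u k + u k) (m * s) / s) ∧
        min (gl m s k0 u k + u k) (m * s) % s ≤ k0) ∧
      gl m s k0 u (k + 1) = min (gl m s k0 u k + u k) (m * s)) := by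
  by_cases h : gl m s k0 u k < s * (min (gl m s k0 u k + u k) (m * s) / s) ∧
        min (gl m s k0 u k + u k) (m * s) % s ≤ k0
  · left
    exact ⟨h.1, h.2, if_pos h⟩
  · right
    exact ⟨h, if_neg h⟩

theorem gl_le (m s k0 : ℕ) (u : ℕ → ℕ) : ∀ k, gl m s k0 u k ≤ m * s
  | 0 => Nat.zero_le _
  | k + 1 => by
    have h1 : s * (min (gl m s k0 u k + u k) (m * s) / s) ≤ min (gl m s k0 u k + u k) (m * s) :=
      Nat.mul_div_le _ _
    have h2 : min (gl m s k0 u k + u k) (m * s) ≤ m * s := min_le_right _ _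
    rcases gl_step m s k0 u k with ⟨-, -, h⟩ | ⟨-, h⟩ <;> rw [h] <;> omega

theorem gl_mono (m s k0 : ℕ) (u : ℕ → ℕ) (k : ℕ) : gl m s k0 u k ≤ gl m s k0 u (k + 1) := by
  have h0 := gl_le m s k0 u k
  rcases gl_step m s k0 u k with ⟨h1, -, h⟩ | ⟨-, h⟩ <;> rw [h] <;> omega

theorem gl_add (m s k0 : ℕ) (u : ℕ → ℕ) (k : ℕ) :
    gl m s k0 u (k + 1) ≤ gl m s k0 u k + u k := by
  have h1 : s * (min (gl m s k0 u k + u k) (m * s) / s) ≤ min (gl m s k0 u k + u k) (m * s) :=
    Nat.mul_div_le _ _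
  have h2 : min (gl m s k0 u k + u k) (m * s) ≤ gl m s k0 u k + u k := min_le_left _ _
  rcases gl_step m s k0 u k with ⟨-, -, h⟩ | ⟨-, h⟩ <;> rw [h] <;> omega

/-- the ends are good -/
theorem gl_good (m s k0 : ℕ) (hs : 0 < s) (u : ℕ → ℕ) (k q : ℕ) (h1 : gl m s k0 u k < q * s)
    (h2 : q * s < gl m s k0 u (k + 1)) :
    gl m s k0 u (k + 1) % s = 0 ∨ k0 < gl m s k0 u (k + 1) % s := by
  rcases gl_step m s k0 u k with ⟨-, -, h⟩ | ⟨h', h⟩
  · left
    rw [h]
    exact Nat.mul_mod_right _ _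
  · right
    rw [← h] at h'
    by_contra hc
    apply h'
    refine ⟨?_, not_lt.1 hc⟩
    have h3 : q ≤ gl m s k0 u (k + 1) / s := (Nat.le_div_iff_mul_le hs).2 h2.le
    have h4 := Nat.mul_le_mul_left s h3
    rw [mul_comm q s] at h1
    omega

/-- the waste -/
theorem gl_waste (m s k0 : ℕ) (hs : 0 < s) (u : ℕ → ℕ) : ∀ k, gl m s k0 u k = m * s ∨
    ∑ i ∈ Finset.range k, u i ≤ gl m s k0 u k + k0 * (gl m s k0 u k / s)
  | 0 => Or.inr (by simp)
  | k + 1 => by
    have hms : s * (m * s / s) = m * s := by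
      rw [Nat.mul_div_cancel _ hs, mul_comm]
    rcases gl_waste m s k0 hs u k with h0 | h0
    · left
      have h1 := gl_mono m s k0 u k
      have h2 := gl_le m s k0 u (k + 1)
      omega
    · rcases Nat.le_total (m * s) (gl m s k0 u k + u k) with hc | hc
      · left
        have e : min (gl m s k0 u k + u k) (m * s) = m * s := min_eq_right hc
        rcases gl_step m s k0 u k with ⟨-, -, h⟩ | ⟨-, h⟩ <;> rw [h, e]
        exact hms
      · right
        have e : min (gl m s k0 u k + u k) (m * s) = gl m s k0 u k + u k := min_eq_left hc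
        rw [Finset.sum_range_succ]
        rcases gl_step m s k0 u k with ⟨h1, h2, h⟩ | ⟨-, h⟩ <;> rw [e] at h
        · rw [e] at h1 h2
          have h3 : gl m s k0 u k / s < (gl m s k0 u k + u k) / s := by
            rw [Nat.div_lt_iff_lt_mul hs, mul_comm]
            exact h1
          have h4 := Nat.div_add_mod (gl m s k0 u k + u k) s
          have h5 : gl m s k0 u (k + 1) / s = (gl m s k0 u k + u k) / s := by
            rw [h, Nat.mul_div_cancel_left _ hs]
          rw [h5]
          have h6 : k0 * (gl m s k0 u k / s + 1) ≤ k0 * ((gl m s k0 u k + u k) / s) :=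
            Nat.mul_le_mul_left _ h3
          rw [Nat.mul_succ] at h6
          omega
        · rw [h]
          have h6 : k0 * (gl m s k0 u k / s) ≤ k0 * ((gl m s k0 u k + u k) / s) :=
            Nat.mul_le_mul_left _ (Nat.div_le_div_right (Nat.le_add_right _ _))
          omega

theorem gl_top (m s k0 r : ℕ) (hm : 0 < m) (hs : 0 < s) (u : ℕ → ℕ)
    (h : m * s + k0 * (m - 1) ≤ ∑ i ∈ Finset.range r, u i) : gl m s k0 u r = m * s := by
  by_contra hc
  have h1 := gl_le m s k0 u r
  have h2 : gl m s k0 u r < m * s := lt_of_le_of_ne h1 hc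
  have h3 := (gl_waste m s k0 hs u r).resolve_left hc
  have h4 : gl m s k0 u r / s < m := (Nat.div_lt_iff_lt_mul hs).2 h2
  have h5 : k0 * (gl m s k0 u r / s) ≤ k0 * (m - 1) := Nat.mul_le_mul_left _ (by omega)
  omega

section

variable {r m s : ℕ} (B : Bas r m s)

theorem card_H : Fintype.card B.H ≤ m - 1 := by
  classical
  have key : ∀ h : B.H, h.1.val < m - 1 := by
    intro h
    by_contra hc
    have h1 : h.1.val + 1 = m := by
      have := h.1.isLt
      omega
    have h2 := B.lt (B.inl_lt h.1)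
    have h3 := B.ltr (B.inl_lt h.1)
    have h4 := B.mono (show B.it ((h.1.val + 1) * s - 1) + 1 ≤ r from h3)
    rw [B.top] at h4
    apply h.2
    rw [h1] at h2 h4 ⊢
    omega
  have h1 : Fintype.card B.H ≤ Fintype.card (Fin (m - 1)) := by
    refine Fintype.card_le_of_injective (fun h => ⟨h.1.val, key h⟩) ?_
    intro h h' e
    have e' : h.1.val = h'.1.val := by
      have e1 : (⟨h.1.val, key h⟩ : Fin (m - 1)) = ⟨h'.1.val, key h'⟩ := e
      exact Fin.mk.inj_iff.1 e1
    exact Subtype.ext (Fin.ext e')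
  rwa [Fintype.card_fin] at h1

theorem vis (p k0 : ℕ) (hk : k0 < s)
    (hB : ∀ k q, B.L k < q * s → q * s < B.L (k + 1) →
      B.L (k + 1) % s = 0 ∨ k0 < B.L (k + 1) % s) (h : B.H) :
    k0 + 1 ≤ (B.D p).t (Sum.inr ((B.D p).it h)) := by
  classical
  have hs := B.hs
  have h5 : B.la (Sum.inl h) = (h.1.val + 1) * s - 1 := rfl
  have h10 : 0 < (h.1.val + 1) * s := Nat.mul_pos (Nat.succ_pos _) B.hs
  have h4 := B.lt (B.la_lt (Sum.inl h))
  have h6 := B.le (B.la (Sum.inl h))
  have h3 : B.L (B.it (B.la (Sum.inl h)) + 1) ≠ (h.1.val + 1) * s := h.2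
  have h2 : ((B.D p).it h).val = B.it (B.la (Sum.inl h)) := rfl
  have hv : B.vld (Sum.inr ((B.D p).it h)) := by
    show B.L (B.it (B.la (Sum.inl h))) < B.L (B.it (B.la (Sum.inl h)) + 1)
    omega
  have ht : (B.D p).t (Sum.inr ((B.D p).it h)) =
      B.b (Sum.inr ((B.D p).it h)) - B.a (Sum.inr ((B.D p).it h)) := if_pos hv
  have h1 := B.itm_inr hv
  have h7 : B.la (Sum.inr ((B.D p).it h)) = B.L (B.it (B.la (Sum.inl h)) + 1) - 1 := rfl
  have h8 : h.1.val + 1 ≤ B.gr (Sum.inr ((B.D p).it h)) := by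
    unfold Bas.gr
    rw [Nat.le_div_iff_mul_le B.hs]
    omega
  have h9 := Nat.mul_le_mul_right s h8
  have ha : B.a (Sum.inr ((B.D p).it h)) = B.gr (Sum.inr ((B.D p).it h)) * s := by
    unfold Bas.a
    rw [h1, h2]
    exact max_eq_right (by omega)
  have hb : B.b (Sum.inr ((B.D p).it h)) = B.L (B.it (B.la (Sum.inl h)) + 1) := by
    unfold Bas.b
    rw [h7]
    omega
  rw [ht, ha, hb]
  have hgood := hB (B.it (B.la (Sum.inl h))) (h.1.val + 1) (by omega) (by omega)
  have hg : B.gr (Sum.inr ((B.D p).it h)) = (B.L (B.it (B.la (Sum.inl h)) + 1) - 1) / s := by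
    unfold Bas.gr
    rw [h7]
  rw [hg]
  generalize hx : B.L (B.it (B.la (Sum.inl h)) + 1) = x at *
  have hx0 : 0 < x := by omega
  have hdm := Nat.div_add_mod x s
  have hml := Nat.mod_lt x hs
  rcases hgood with h0 | h0
  · -- the end is a multiple of `s`
    have hd1 : 1 ≤ x / s := (Nat.le_div_iff_mul_le hs).2 (by
      rw [h0] at hdm
      rcases Nat.eq_zero_or_pos (x / s) with hz | hz
      · rw [hz] at hdm
        omega
      · have := Nat.mul_le_mul_left s hz
        omega)
    have e : (x - 1) / s = x / s - 1 := by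
      refine Nat.div_eq_of_lt_le ?_ ?_
      · rw [Nat.sub_mul, one_mul, mul_comm]
        omega
      · rw [show x / s - 1 + 1 = x / s by omega, mul_comm]
        omega
    rw [e, Nat.sub_mul, one_mul, mul_comm (x / s) s]
    have := Nat.mul_le_mul_left s hd1
    omega
  · have e : (x - 1) / s = x / s := by
      refine Nat.div_eq_of_lt_le ?_ ?_
      · rw [mul_comm]
        omega
      · rw [Nat.succ_mul, mul_comm]
        omega
    rw [e, mul_comm (x / s) s]
    omega

end

theorem comb_holds : Pool.Agent.Z894.SP.SComb := by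
  classical
  intro r m s k0 p v hp hm hk hv
  have hs : 0 < s := by omega
  let u : ℕ → ℕ := fun k => if h : k < r then v ⟨k, h⟩ else 0
  have hsum : ∑ j ∈ Finset.range r, u j = ∑ i, v i := by
    rw [Finset.sum_range]
    exact Finset.sum_congr rfl fun i _ => dif_pos i.isLt
  let B : Bas r m s :=
    { L := gl m s k0 u
      hm := hm
      hs := hs
      mono := monotone_nat_of_le_succ (gl_mono m s k0 u)
      zero := rfl
      top := gl_top m s k0 r hm hs u (by rw [hsum]; exact hv) }
  refine ⟨B.H, inferInstance, inferInstance, B.D p, B.good hp,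
    vis B p k0 hk (fun k q h1 h2 => gl_good m s k0 hs u k q h1 h2), card_H B, fun i hi => ?_⟩
  have h1 := B.tot_le p i hi
  have h2 : B.L (i.val + 1) - B.L i.val ≤ v i := by
    have h3 : u i.val = v i := dif_pos i.isLt
    have h4 : B.L (i.val + 1) ≤ B.L i.val + u i.val := gl_add m s k0 u i.val
    omega
  exact h1.trans h2

end Pool.Agent.Y641.SPC
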